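import Mathlib
import Pool.Agent.H94.IC.Targets3

/-!
# Insulating cracks: restriction of holomorphic functions to complex lines
-/

open MeasureTheory Set Filter Topology Metric
open scoped ENNReal NNReal ContDiff RealInnerProductSpace

namespace Pool.Agent.H18.IC

open Pool.Agent.H94.IC

theorem cx_add (x y : E) : cx (x + y) = cx x + cx y := by
  funext k; simp [cx]

theorem cx_sub (x y : E) : cx (x - y) = cx x - cx y := by
  funext k; simp [cx]

theorem cx_smul (t : ℝ) (x : E) : cx (t • x) = (t : ℂ) • cx x := by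
  funext k; simp [cx]

theorem norm_cx_le (x : E) : ‖cx x‖ ≤ ‖x‖ := by
  rw [pi_norm_le_iff_of_nonneg (norm_nonneg _)]
  intro k
  simp only [cx, Complex.norm_real]
  exact PiLp.norm_apply_le x k

theorem norm_le_two_cx (x : E) : ‖x‖ ≤ 2 * ‖cx x‖ := by
  have h1 : ∀ k, |x k| ≤ ‖cx x‖ := by
    intro k
    have := norm_le_pi_norm (cx x) k
    simpa [cx, Complex.norm_real] using this
  have h2 : ‖x‖ ^ 2 ≤ (2 * ‖cx x‖) ^ 2 := by
    rw [EuclideanSpace.norm_sq_eq, Fin.sum_univ_three]
    have h3 : ∀ k, ‖x k‖ ^ 2 ≤ ‖cx x‖ ^ 2 := fun k => by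
      rw [Real.norm_eq_abs]
      exact pow_le_pow_left₀ (abs_nonneg _) (h1 k) 2
    have h0 := h3 0
    have h1' := h3 1
    have h2' := h3 2
    have h4 : 0 ≤ ‖cx x‖ ^ 2 := by positivity
    nlinarith
  exact le_of_sq_le_sq h2 (by positivity) |> fun h => h

theorem dist_cx_le (x y : E) : dist (cx x) (cx y) ≤ dist x y := by
  rw [dist_eq_norm, dist_eq_norm, ← cx_sub]; exact norm_cx_le _

theorem dist_le_two_cx (x y : E) : dist x y ≤ 2 * dist (cx x) (cx y) := by
  rw [dist_eq_norm, dist_eq_norm, ← cx_sub]; exact norm_le_two_cx _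

theorem cx_continuous : Continuous cx := by
  refine continuous_pi fun k => ?_
  exact Complex.continuous_ofReal.comp (EuclideanSpace.proj (𝕜 := ℝ) k).continuous

/-- a function which vanishes on a small part of a segment from the centre vanishes at the end -/
theorem line_zero {p v : C3} {ρ : ℝ} {F : C3 → ℂ} (hF : GH (ball p ρ) F) (hv : ‖v‖ < ρ)
    (h0 : ∃ ε > 0, ∀ t : ℝ, 0 < t → t < ε → F (p + (t : ℂ) • v) = 0) : F (p + v) = 0 := by
  obtain ⟨ε, hε, h0⟩ := h0
  set U : Set ℂ := {t : ℂ | ‖t • v‖ < ρ} with hU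
  have hUo : IsOpen U := by
    refine isOpen_lt ?_ continuous_const
    exact (continuous_id.smul continuous_const).norm
  have hUc : Convex ℝ U := by
    intro a ha b hb s t hs ht hst
    have ha' : ‖a • v‖ < ρ := ha
    have hb' : ‖b • v‖ < ρ := hb
    show ‖(s • a + t • b) • v‖ < ρ
    have e1 : (s • a + t • b) • v = s • (a • v) + t • (b • v) := by
      rw [add_smul, smul_assoc, smul_assoc]
    rw [e1]
    calc ‖s • (a • v) + t • (b • v)‖ ≤ ‖s • (a • v)‖ + ‖t • (b • v)‖ := norm_add_le _ _
      _ = s * ‖a • v‖ + t * ‖b • v‖ := by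
          rw [norm_smul s (a • v), norm_smul t (b • v), Real.norm_of_nonneg hs, Real.norm_of_nonneg ht]
      _ < ρ := by
          rcases eq_or_lt_of_le hs with h | h
          · have : t = 1 := by linarith
            rw [← h, this]; linarith
          · have h1 : s * ‖a • v‖ < s * ρ := mul_lt_mul_of_pos_left ha' h
            have h2 : t * ‖b • v‖ ≤ t * ρ := mul_le_mul_of_nonneg_left hb'.le ht
            have h3 : s * ρ + t * ρ = ρ := by rw [← add_mul, hst, one_mul]
            linarith
  have hd : DifferentiableOn ℂ (fun t : ℂ => F (p + t • v)) U := by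
    intro t ht
    have h1 : p + t • v ∈ ball p ρ := by
      rw [mem_ball, dist_self_add_left]; exact ht
    have h2 := hF.2 (p + t • v) h1 v
    have h3 : (fun s : ℂ => F (p + s • v)) = (fun s : ℂ => F (p + t • v + s • v)) ∘ (fun s => s - t) := by
      funext s
      simp only [Function.comp]
      congr 1
      rw [sub_smul]; abel
    have h4 : DifferentiableAt ℂ (fun s : ℂ => F (p + s • v)) t := by
      rw [h3]
      refine DifferentiableAt.comp t ?_ (differentiableAt_id.sub_const t)
      simpa using h2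
    exact h4.differentiableWithinAt
  have han : AnalyticOnNhd ℂ (fun t : ℂ => F (p + t • v)) U := hd.analyticOnNhd hUo
  have h0U : (0 : ℂ) ∈ U := by
    show ‖(0 : ℂ) • v‖ < ρ
    rw [zero_smul, norm_zero]
    exact lt_of_le_of_lt (norm_nonneg v) hv
  have h1U : (1 : ℂ) ∈ U := by
    show ‖(1 : ℂ) • v‖ < ρ
    rwa [one_smul]
  have hfr : ∃ᶠ t in 𝓝[≠] (0 : ℂ), F (p + t • v) = 0 := by
    rw [frequently_iff]
    intro V hV
    rw [mem_nhdsWithin_iff] at hV
    obtain ⟨r, hr, hV⟩ := hV
    set s : ℝ := min (ε / 2) (r / 2) with hs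
    have hs0 : 0 < s := by positivity
    refine ⟨(s : ℂ), hV ⟨?_, ?_⟩, h0 s hs0 ?_⟩
    · rw [mem_ball_zero_iff, Complex.norm_real, Real.norm_of_nonneg hs0.le]
      have := min_le_right (ε / 2) (r / 2)
      linarith
    · simpa using hs0.ne'
    · have := min_le_left (ε / 2) (r / 2)
      linarith
  have hz := han.eqOn_zero_of_preconnected_of_frequently_eq_zero hUc.isPreconnected h0U hfr h1U
  simpa using hz

end Pool.Agent.H18.IC
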