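import Mathlib
import Pool.Agent.H94.IC.Targets3
import Pool.Agent.H18.IC.Line

/-!
# Insulating cracks, module ANL: locality of analytic sets and graph points
-/

open MeasureTheory Set Filter Topology Metric
open scoped ENNReal NNReal ContDiff RealInnerProductSpace

namespace Pool.Agent.H18.IC

open Pool.Agent.H94.IC

theorem gh_mono {U V : Set C3} {F : C3 → ℂ} (h : GH V F) (hUV : U ⊆ V) : GH U F :=
  ⟨h.1.mono hUV, fun z hz v => h.2 z (hUV hz) v⟩

theorem an_local {Y Y' N : Set E} {p : E} (hN : N ∈ 𝓝 p) (hY : Y' ∩ N = Y ∩ N) (h : AN Y p) :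
    AN Y' p := by
  obtain ⟨ρ, F, hρ, hF, hYF, x1, hx1, hx1Y⟩ := h
  obtain ⟨δ, hδ, hδN⟩ := Metric.mem_nhds_iff.1 hN
  set ρ' : ℝ := min ρ (δ / 2) with hρ'
  have hρ'0 : 0 < ρ' := by positivity
  have hρρ : ρ' ≤ ρ := min_le_left _ _
  have hsub : ball (cx p) ρ' ⊆ ball (cx p) ρ := ball_subset_ball hρρ
  have hNx : ∀ x : E, cx x ∈ ball (cx p) ρ' → x ∈ N := by
    intro x hx
    refine hδN ?_
    rw [mem_ball] at hx ⊢
    have h1 := dist_le_two_cx x p
    have h2 : ρ' ≤ δ / 2 := min_le_right _ _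
    linarith
  have hYY : ∀ x ∈ N, (x ∈ Y' ↔ x ∈ Y) := by
    intro x hx
    constructor
    · intro h
      have : x ∈ Y' ∩ N := ⟨h, hx⟩
      rw [hY] at this; exact this.1
    · intro h
      have : x ∈ Y ∩ N := ⟨h, hx⟩
      rw [← hY] at this; exact this.1
  refine ⟨ρ', F, hρ'0, gh_mono hF hsub, ?_, ?_⟩
  · intro x hx
    have h1 := hYF x (hsub hx)
    exact ⟨h1.1, (hYY x (hNx x hx)).trans h1.2⟩
  · by_contra hcon
    push Not at hcon
    have hF1 : F (cx x1) ≠ 0 := fun h => hx1Y ((hYF x1 hx1).2.2 h)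
    refine hF1 ?_
    have e1 : cx x1 = cx p + (cx x1 - cx p) := by abel
    rw [e1]
    have hv : ‖cx x1 - cx p‖ < ρ := by rwa [mem_ball, dist_eq_norm] at hx1
    refine line_zero hF hv ⟨ρ' / ρ, by positivity, ?_⟩
    intro t ht htε
    have e2 : cx p + (t : ℂ) • (cx x1 - cx p) = cx (p + t • (x1 - p)) := by
      rw [cx_add, cx_smul, cx_sub]
    rw [e2]
    have hmem : cx (p + t • (x1 - p)) ∈ ball (cx p) ρ' := by
      rw [← e2, mem_ball, dist_self_add_left, norm_smul, Complex.norm_real, Real.norm_of_nonneg ht.le]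
      calc t * ‖cx x1 - cx p‖ ≤ t * ρ := mul_le_mul_of_nonneg_left hv.le ht.le
        _ < ρ' / ρ * ρ := mul_lt_mul_of_pos_right htε hρ
        _ = ρ' := by field_simp
    have hY' := hcon _ hmem
    exact (hYF _ (hsub hmem)).2.1 ((hYY _ (hNx _ hmem)).1 hY')

theorem an_empty {Y' N : Set E} {p : E} (hN : N ∈ 𝓝 p) (hY : Y' ∩ N = ∅) : AN Y' p := by
  obtain ⟨δ, hδ, hδN⟩ := Metric.mem_nhds_iff.1 hN
  have hn : ∀ x ∈ N, x ∉ Y' := by
    intro x hx h
    have : x ∈ Y' ∩ N := ⟨h, hx⟩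
    rw [hY] at this; exact this
  refine ⟨δ / 2, fun _ => 1, by positivity, ⟨continuousOn_const, fun z _ v => by simp⟩, ?_, ?_⟩
  · intro x hx
    refine ⟨by simp, ?_⟩
    have hxN : x ∈ N := by
      refine hδN ?_
      rw [mem_ball] at hx ⊢
      have h1 := dist_le_two_cx x p
      linarith
    simp [hn x hxN]
  · exact ⟨p, mem_ball_self (by positivity), hn p (mem_of_mem_nhds hN)⟩

theorem norm_le_of_coords {x : E} {M : ℝ} (h : ∀ k, |x k| ≤ M) : ‖x‖ ≤ 2 * M := by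
  have hM : 0 ≤ M := (abs_nonneg _).trans (h 0)
  refine (norm_le_two_cx x).trans ?_
  have : ‖cx x‖ ≤ M := by
    rw [pi_norm_le_iff_of_nonneg hM]
    intro k
    simpa [cx, Complex.norm_real] using h k
  linarith

theorem grpt_local {Y Y' N : Set E} {p : E} (hN : N ∈ 𝓝 p) (hY : Y' ∩ N = Y ∩ N) (h : GrPt Y p) :
    GrPt Y' p := by
  obtain ⟨T, r, hh, g, hG⟩ := h
  obtain ⟨δ, hδ, hδN⟩ := Metric.mem_nhds_iff.1 hN
  have hYY : ∀ x ∈ N, (x ∈ Y' ↔ x ∈ Y) := by
    intro x hx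
    constructor
    · intro h
      have : x ∈ Y' ∩ N := ⟨h, hx⟩
      rw [hY] at this; exact this.1
    · intro h
      have : x ∈ Y ∩ N := ⟨h, hx⟩
      rw [← hY] at this; exact this.1
  set h' : ℝ := min hh (δ / 4) with hh'
  have hh0 : 0 < h' := by
    have := hG.hpos
    positivity
  have hsq : IsOpen {a : ℝ × ℝ | |a.1| < r ∧ |a.2| < r} := by
    refine IsOpen.inter ?_ ?_
    · exact isOpen_lt continuous_fst.abs continuous_const
    · exact isOpen_lt continuous_snd.abs continuous_const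
  have h00 : ((0 : ℝ), (0 : ℝ)) ∈ {a : ℝ × ℝ | |a.1| < r ∧ |a.2| < r} := by
    have := hG.rpos
    simpa using this
  have hgc : ContinuousAt g (0, 0) := (hG.cont).continuousAt (hsq.mem_nhds h00)
  have hev : ∀ᶠ a in 𝓝 ((0 : ℝ), (0 : ℝ)), |g a| < h' := by
    have h1 : ContinuousAt (fun a => |g a|) (0, 0) := hgc.abs
    have h2 : |g (0, 0)| < h' := by rw [hG.zero, abs_zero]; exact hh0
    exact h1.eventually (gt_mem_nhds h2)
  obtain ⟨η, hη, hηg⟩ := Metric.eventually_nhds_iff.1 hev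
  set r' : ℝ := min (min r (δ / 4)) (η / 2) with hr'
  have hr0 : 0 < r' := by
    have := hG.rpos
    positivity
  have hrr : r' ≤ r := (min_le_left _ _).trans (min_le_left _ _)
  have hrd : r' ≤ δ / 4 := (min_le_left _ _).trans (min_le_right _ _)
  have hrη : r' ≤ η / 2 := min_le_right _ _
  have hhd : h' ≤ δ / 4 := min_le_right _ _
  have hhh : h' ≤ hh := min_le_left _ _
  have hbx : ∀ x ∈ Bx T p r' h', x ∈ Bx T p r hh ∧ x ∈ N := by
    intro x hx
    refine ⟨⟨hx.1.trans_le hrr, hx.2.1.trans_le hrr, hx.2.2.trans_le hhh⟩, hδN ?_⟩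
    rw [mem_ball, dist_eq_norm, ← T.norm_map (x - p)]
    have h1 : ∀ k, |(T (x - p)) k| ≤ δ / 4 := by
      intro k
      fin_cases k
      · exact hx.1.le.trans hrd
      · exact hx.2.1.le.trans hrd
      · exact hx.2.2.le.trans hhd
    have h2 := norm_le_of_coords h1
    linarith
  refine ⟨T, r', h', g, ⟨hr0, hh0, ?_, hG.zero, ?_, ?_⟩⟩
  · refine hG.cont.mono ?_
    intro a ha
    exact ⟨ha.1.trans_le hrr, ha.2.trans_le hrr⟩
  · intro a h1 h2
    refine hηg ?_
    rw [Prod.dist_eq]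
    simp only [Real.dist_eq, sub_zero]
    exact max_lt (by linarith) (by linarith)
  · intro x hx
    obtain ⟨h1, h2⟩ := hbx x hx
    rw [hYY x h2]
    exact hG.eq x h1

/-- module ANL -/
theorem anl : T_ANL := fun _ _ _ _ hN => ⟨an_local hN, an_empty hN, grpt_local hN⟩

end Pool.Agent.H18.IC
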