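import Mathlib
import Pool.Agent.H94.IC.Targets3

/-!
# Insulating cracks, module CNO: a disc does not disconnect
-/

open MeasureTheory Set Filter Topology Metric
open scoped ENNReal NNReal ContDiff RealInnerProductSpace

namespace Pool.Agent.H18.IC

open Pool.Agent.H94.IC

/-- convex open sets minus the flat disc -/
theorem preconn_diff_flat {U : Set E} (hU : IsOpen U) (hc : Convex ℝ U)
    (hM : ∃ y ∈ U, y 2 = 0 ∧ 1 < y 0 ^ 2 + y 1 ^ 2) : IsPreconnected (U \ flatDisc) := by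
  set M : Set E := {y | y ∈ U ∧ y 2 = 0 ∧ 1 < y 0 ^ 2 + y 1 ^ 2} with hMd
  set P : Set E := {y | y ∈ U ∧ 0 < y 2} with hP
  set Q : Set E := {y | y ∈ U ∧ y 2 < 0} with hQ
  have hPc : Convex ℝ P := by
    refine hc.inter ?_
    intro a ha b hb s t hs ht hst
    show 0 < (s • a + t • b) 2
    have ha' : 0 < a 2 := ha
    have hb' : 0 < b 2 := hb
    simp only [PiLp.add_apply, PiLp.smul_apply, smul_eq_mul]
    rcases eq_or_lt_of_le hs with h | h
    · have : t = 1 := by linarith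
      rw [← h, this]; linarith
    · have := mul_pos h ha'
      have := mul_nonneg ht hb'.le
      linarith
  have hQc : Convex ℝ Q := by
    refine hc.inter ?_
    intro a ha b hb s t hs ht hst
    show (s • a + t • b) 2 < 0
    have ha' : a 2 < 0 := ha
    have hb' : b 2 < 0 := hb
    simp only [PiLp.add_apply, PiLp.smul_apply, smul_eq_mul]
    rcases eq_or_lt_of_le hs with h | h
    · have : t = 1 := by linarith
      rw [← h, this]; linarith
    · have := mul_neg_of_pos_of_neg h ha'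
      have := mul_nonpos_of_nonneg_of_nonpos ht hb'.le
      linarith
  have hcl : ∀ y ∈ M, ∀ r > 0, ∃ t : ℝ, 0 < t ∧ t < r ∧ y + t • ev 2 ∈ U ∧ y + (-t) • ev 2 ∈ U := by
    intro y hy r hr
    obtain ⟨η, hη, hb⟩ := Metric.isOpen_iff.1 hU y hy.1
    refine ⟨min (η / 2) (r / 2), by positivity, ?_, hb ?_, hb ?_⟩
    · have := min_le_right (η / 2) (r / 2)
      linarith
    · rw [mem_ball, dist_self_add_left, norm_smul]
      have h1 := min_le_left (η / 2) (r / 2)
      have h2 : 0 < min (η / 2) (r / 2) := by positivity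
      simp only [Real.norm_eq_abs, abs_of_pos h2, ev, PiLp.norm_single, abs_one, mul_one]
      linarith
    · rw [mem_ball, dist_self_add_left, norm_smul]
      have h1 := min_le_left (η / 2) (r / 2)
      have h2 : 0 < min (η / 2) (r / 2) := by positivity
      simp only [Real.norm_eq_abs, abs_neg, abs_of_pos h2, ev, PiLp.norm_single, abs_one, mul_one]
      linarith
  have hMP : M ⊆ closure P := by
    intro y hy
    rw [Metric.mem_closure_iff]
    intro r hr
    obtain ⟨t, ht, htr, h1, h2⟩ := hcl y hy r hr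
    refine ⟨y + t • ev 2, ⟨h1, ?_⟩, ?_⟩
    · simp [ev, hy.2.1, ht]
    · rw [dist_self_add_right, norm_smul]
      simpa [ev, abs_of_pos ht] using htr
  have hMQ : M ⊆ closure Q := by
    intro y hy
    rw [Metric.mem_closure_iff]
    intro r hr
    obtain ⟨t, ht, htr, h1, h2⟩ := hcl y hy r hr
    refine ⟨y + (-t) • ev 2, ⟨h2, ?_⟩, ?_⟩
    · simp [ev, hy.2.1, ht]
    · rw [dist_self_add_right, norm_smul]
      simpa [ev, abs_of_pos ht] using htr
  have hTP : IsPreconnected (P ∪ M) :=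
    hPc.isPreconnected.subset_closure subset_union_left (union_subset subset_closure hMP)
  have hTQ : IsPreconnected (Q ∪ M) :=
    hQc.isPreconnected.subset_closure subset_union_left (union_subset subset_closure hMQ)
  obtain ⟨y0, hy0, hy1, hy2⟩ := hM
  have h3 : IsPreconnected ((P ∪ M) ∪ (Q ∪ M)) :=
    IsPreconnected.union y0 (Or.inr ⟨hy0, hy1, hy2⟩) (Or.inr ⟨hy0, hy1, hy2⟩) hTP hTQ
  have h4 : U \ flatDisc = (P ∪ M) ∪ (Q ∪ M) := by
    ext y
    constructor
    · rintro ⟨hyU, hyD⟩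
      rcases lt_trichotomy (y 2) 0 with h | h | h
      · exact Or.inr (Or.inl ⟨hyU, h⟩)
      · refine Or.inl (Or.inr ⟨hyU, h, ?_⟩)
        by_contra hcon
        exact hyD ⟨h, not_lt.1 hcon⟩
      · exact Or.inl (Or.inl ⟨hyU, h⟩)
    · rintro ((h | h) | (h | h))
      · exact ⟨h.1, fun hd => (ne_of_gt h.2) hd.1⟩
      · exact ⟨h.1, fun hd => absurd hd.2 (not_le.2 h.2.2)⟩
      · exact ⟨h.1, fun hd => (ne_of_lt h.2) hd.1⟩
      · exact ⟨h.1, fun hd => absurd hd.2 (not_le.2 h.2.2)⟩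
  rw [h4]; exact h3

theorem image_diff_flat {Φ : OpenPartialHomeomorph E E} {U : Set E} (hU : U ⊆ Φ.source)
    (hD : flatDisc ⊆ Φ.source) : Φ '' U \ Φ '' flatDisc = Φ '' (U \ flatDisc) := by
  ext x
  constructor
  · rintro ⟨⟨y, hy, rfl⟩, hn⟩
    exact ⟨y, ⟨hy, fun h => hn ⟨y, h, rfl⟩⟩, rfl⟩
  · rintro ⟨y, ⟨hy, hyn⟩, rfl⟩
    refine ⟨⟨y, hy, rfl⟩, ?_⟩
    rintro ⟨z, hz, hzy⟩
    have := Φ.injOn (hD hz) (hU hy) hzy
    rw [this] at hz
    exact hyn hz

theorem flat_convex : Convex ℝ flatDisc := by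
  intro a ha b hb s t hs ht hst
  refine ⟨?_, ?_⟩
  · simp only [PiLp.add_apply, PiLp.smul_apply, smul_eq_mul, ha.1, hb.1]; ring
  · simp only [PiLp.add_apply, PiLp.smul_apply, smul_eq_mul]
    have ha' := ha.2
    have hb' := hb.2
    have e2 : t = 1 - s := by linarith
    subst e2
    nlinarith [mul_nonneg (mul_nonneg hs ht) (sq_nonneg (a 0 - b 0)),
      mul_nonneg (mul_nonneg hs ht) (sq_nonneg (a 1 - b 1)), mul_le_mul_of_nonneg_left ha' hs,
      mul_le_mul_of_nonneg_left hb' ht]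

/-- module CNO -/
theorem cno : T_CNO := by
  intro Ω S Φ δ hΩ hΩc hT
  have hsrc : flatDisc ⊆ Φ.source := (self_subset_cthickening _).trans hT.src
  have hδ := hT.pos
  set U0 : Set E := thickening δ flatDisc with hU0
  have hU0s : U0 ⊆ Φ.source := (thickening_subset_cthickening _ _).trans hT.src
  have hU0o : IsOpen U0 := isOpen_thickening
  have hU0c : Convex ℝ U0 := flat_convex.thickening δ
  have hDU : flatDisc ⊆ U0 := self_subset_thickening hδ _
  have hpt : ∃ y ∈ U0, y 2 = 0 ∧ 1 < y 0 ^ 2 + y 1 ^ 2 := by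
    refine ⟨(1 + δ / 2) • ev 0, ?_, by simp [ev], ?_⟩
    · rw [hU0, mem_thickening_iff]
      refine ⟨ev 0, ⟨by simp [ev], by simp [ev]⟩, ?_⟩
      rw [dist_eq_norm]
      have e1 : (1 + δ / 2) • (ev 0 : E) - ev 0 = (δ / 2) • ev 0 := by rw [add_smul, one_smul]; abel
      rw [e1, norm_smul, Real.norm_of_nonneg (by positivity)]
      simp [ev]
      linarith
    · have h0 : (((1 + δ / 2) • (ev 0 : E)) 0 : ℝ) = 1 + δ / 2 := by simp [ev]
      have h1 : (((1 + δ / 2) • (ev 0 : E)) 1 : ℝ) = 0 := by simp [ev]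
      rw [h0, h1]
      nlinarith
  have hV0c : IsPreconnected (Φ '' U0 \ S) := by
    rw [← hT.img, image_diff_flat hU0s hsrc]
    exact (preconn_diff_flat hU0o hU0c hpt).image _ (Φ.continuousOn.mono (sdiff_subset.trans hU0s))
  have hV0o : IsOpen (Φ '' U0) := Φ.isOpen_image_of_subset_source hU0o hU0s
  have hV0Ω : Φ '' U0 ⊆ Ω := by
    rintro _ ⟨y, hy, rfl⟩
    exact hT.tgt (Φ.map_source (hU0s hy))
  have hV0n : (Φ '' U0 \ S).Nonempty := by
    rw [← hT.img, image_diff_flat hU0s hsrc]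
    obtain ⟨y, hy, h2, h1⟩ := hpt
    exact ⟨Φ y, y, ⟨hy, fun h => absurd h.2 (not_le.2 h1)⟩, rfl⟩
  have hSV : S ⊆ Φ '' U0 := by
    rw [← hT.img]; exact image_mono hDU
  have hScl : IsClosed S := by
    rw [← hT.img]
    have hcomp : IsCompact flatDisc := by
      refine Metric.isCompact_of_isClosed_isBounded ?_ ?_
      · refine IsClosed.inter ?_ ?_
        · exact isClosed_eq (EuclideanSpace.proj (𝕜 := ℝ) (2 : Fin 3)).continuous continuous_const
        · exact isClosed_le (((EuclideanSpace.proj (𝕜 := ℝ) (0 : Fin 3)).continuous.pow 2).add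
            ((EuclideanSpace.proj (𝕜 := ℝ) (1 : Fin 3)).continuous.pow 2)) continuous_const
      · refine (isBounded_closedBall (x := (0 : E)) (r := 1)).subset ?_
        intro y hy
        rw [mem_closedBall_zero_iff, EuclideanSpace.norm_eq, Fin.sum_univ_three]
        simp only [Real.norm_eq_abs, sq_abs]
        have h1 := hy.1
        have h2 := hy.2
        rw [h1]
        refine Real.sqrt_le_one.2 ?_
        linarith
    exact (hcomp.image_of_continuousOn (Φ.continuousOn.mono hsrc)).isClosed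
  have hOo : IsOpen (Ω \ S) := hΩ.sdiff hScl
  refine ⟨⟨?_, ?_⟩, ?_⟩
  · obtain ⟨x, hx⟩ := hV0n
    exact ⟨x, hV0Ω hx.1, hx.2⟩
  · intro u v hu hv huv hun hvn
    by_contra hcon
    rw [not_nonempty_iff_eq_empty] at hcon
    have key : ∀ u v : Set E, IsOpen u → IsOpen v → Ω \ S ⊆ u ∪ v → ((Ω \ S) ∩ v).Nonempty →
        (Ω \ S) ∩ (u ∩ v) = ∅ → Φ '' U0 \ S ⊆ u → False := by
      intro u v hu hv huv hvn hcon hsub
      have h1 : IsOpen (u ∩ (Ω \ S) ∪ Φ '' U0) := (hu.inter hOo).union hV0o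
      have h2 : IsOpen (v ∩ (Ω \ S)) := hv.inter hOo
      obtain ⟨x, hx, hx1, hx2⟩ := hΩc.isPreconnected _ _ h1 h2 (by
        intro x hx
        by_cases hxS : x ∈ S
        · exact Or.inl (Or.inr (hSV hxS))
        · rcases huv ⟨hx, hxS⟩ with h | h
          · exact Or.inl (Or.inl ⟨h, hx, hxS⟩)
          · exact Or.inr ⟨h, hx, hxS⟩) (by
        obtain ⟨x, hx⟩ := hV0n
        exact ⟨x, hV0Ω hx.1, Or.inr hx.1⟩) (by
        obtain ⟨x, hx⟩ := hvn
        exact ⟨x, hx.1.1, hx.2, hx.1⟩)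
      have hxu : x ∈ u := by
        rcases hx1 with h | h
        · exact h.1
        · exact hsub ⟨h, hx2.2.2⟩
      have : x ∈ (Ω \ S) ∩ (u ∩ v) := ⟨hx2.2, hxu, hx2.1⟩
      rw [hcon] at this
      exact this
    have h5 := IsPreconnected.subset_or_subset (hu.inter hOo) (hv.inter hOo) (by
      rw [Set.disjoint_iff]
      rintro x ⟨hx1, hx2⟩
      have : x ∈ (Ω \ S) ∩ (u ∩ v) := ⟨hx1.2, hx1.1, hx2.1⟩
      rw [hcon] at this
      exact this) (by
      intro x hx
      have hxO : x ∈ Ω \ S := ⟨hV0Ω hx.1, hx.2⟩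
      rcases huv hxO with h | h
      · exact Or.inl ⟨h, hxO⟩
      · exact Or.inr ⟨h, hxO⟩) hV0c
    rcases h5 with h | h
    · exact key u v hu hv huv hvn hcon (h.trans inter_subset_left)
    · exact key v u hv hu (by rwa [union_comm]) hun (by rwa [inter_comm v u]) (h.trans inter_subset_left)
  · intro y0 hy0 ε hε
    have hy0s := hsrc hy0
    have h1 : Φ ⁻¹' (ball (Φ y0) ε) ∈ 𝓝 y0 :=
      (Φ.continuousAt hy0s).preimage_mem_nhds (ball_mem_nhds _ hε)
    have h2 : Φ.source ∈ 𝓝 y0 := Φ.open_source.mem_nhds hy0s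
    obtain ⟨s, hs, hb⟩ := Metric.mem_nhds_iff.1 (inter_mem h1 h2)
    have hbs : ball y0 s ⊆ Φ.source := fun y hy => (hb hy).2
    refine ⟨Φ '' ball y0 s, Φ.isOpen_image_of_subset_source isOpen_ball hbs,
      ⟨y0, mem_ball_self hs, rfl⟩, ?_, ?_, ?_⟩
    · rintro _ ⟨y, hy, rfl⟩
      exact (hb hy).1
    · rintro _ ⟨y, hy, rfl⟩
      exact hT.tgt (Φ.map_source (hbs hy))
    · intro hc
      have hn : ‖y0‖ = 1 := by
        rw [EuclideanSpace.norm_eq, Fin.sum_univ_three]
        simp only [Real.norm_eq_abs, sq_abs, hy0.1]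
        rw [show y0 0 ^ 2 + y0 1 ^ 2 + 0 ^ 2 = (1 : ℝ) by linarith]
        simp
      have hpt2 : ∃ y ∈ ball y0 s, y 2 = 0 ∧ 1 < y 0 ^ 2 + y 1 ^ 2 := by
        refine ⟨(1 + s / 2) • y0, ?_, by simp [hy0.1], ?_⟩
        · rw [mem_ball, dist_eq_norm]
          have e1 : (1 + s / 2) • y0 - y0 = (s / 2) • y0 := by rw [add_smul, one_smul]; abel
          rw [e1, norm_smul, Real.norm_of_nonneg (by positivity), hn]
          linarith
        · simp only [PiLp.smul_apply, smul_eq_mul]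
          have h4 : ((1 + s / 2) * y0 0) ^ 2 + ((1 + s / 2) * y0 1) ^ 2 = (1 + s / 2) ^ 2 := by
            calc ((1 + s / 2) * y0 0) ^ 2 + ((1 + s / 2) * y0 1) ^ 2
                = (1 + s / 2) ^ 2 * (y0 0 ^ 2 + y0 1 ^ 2) := by ring
              _ = (1 + s / 2) ^ 2 := by rw [hc, mul_one]
          rw [h4]
          nlinarith
      refine ⟨⟨⟨Φ y0, y0, mem_ball_self hs, rfl⟩,
        (convex_ball y0 s).isPreconnected.image _ (Φ.continuousOn.mono hbs)⟩, ?_, ?_⟩
      · rw [← hT.img, image_diff_flat hbs hsrc]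
        obtain ⟨y, hy, h3, h4⟩ := hpt2
        exact ⟨Φ y, y, ⟨hy, fun h => absurd h.2 (not_le.2 h4)⟩, rfl⟩
      · rw [← hT.img, image_diff_flat hbs hsrc]
        exact (preconn_diff_flat isOpen_ball (convex_ball y0 s) hpt2).image _
          (Φ.continuousOn.mono (sdiff_subset.trans hbs))

end Pool.Agent.H18.IC
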