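import Mathlib
import Pool.Agent.H94.IC.Targets3
import Pool.Agent.H18.IC.Line

/-!
# Insulating cracks, module COO: adapted coordinates
-/

open MeasureTheory Set Filter Topology Metric
open scoped ENNReal NNReal ContDiff RealInnerProductSpace

namespace Pool.Agent.H18.IC

open Pool.Agent.H94.IC

/-- an isometry whose inverse sends the third basis vector to the direction of `v` -/
theorem exists_isom (v : E) : ∃ T : E ≃ₗᵢ[ℝ] E, v = ‖v‖ • T.symm (ev 2) := by
  by_cases hv : v = 0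
  · exact ⟨LinearIsometryEquiv.refl ℝ E, by simp [hv]⟩
  · have hn : ‖v‖ ≠ 0 := norm_ne_zero_iff.2 hv
    set e : E := ‖v‖⁻¹ • v with he
    have he1 : ‖e‖ = ‖(ev 2 : E)‖ := by
      rw [he, norm_smul, norm_inv, norm_norm, inv_mul_cancel₀ hn]
      simp [ev]
    have h1 := Submodule.reflection_sub he1
    refine ⟨(ℝ ∙ (e - ev 2))ᗮ.reflection, ?_⟩
    have h2 : ((ℝ ∙ (e - ev 2))ᗮ.reflection).symm (ev 2) = e := by
      rw [LinearIsometryEquiv.symm_apply_eq]
      exact h1.symm
    rw [h2, he, smul_smul, mul_inv_cancel₀ hn, one_smul]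

/-- module COO -/
theorem coo : T_COO := by
  intro Y p h
  obtain ⟨ρ, F, hρ, hF, hYF, x1, hx1, hx1Y⟩ := h
  obtain ⟨T, hT⟩ := exists_isom (x1 - p)
  set b : Fin 3 → E := fun k => T.symm (ev k) with hb
  have hbn : ∀ k, ‖cx (b k)‖ ≤ 1 := by
    intro k
    refine (norm_cx_le _).trans ?_
    rw [hb]
    simp [ev]
  set A : C3 → C3 := fun z => ∑ k, z k • cx (b k) with hA
  have hAn : ∀ z, ‖A z‖ ≤ 3 * ‖z‖ := by
    intro z
    rw [hA]
    refine (norm_sum_le _ _).trans ?_
    have h1 : ∀ k ∈ (Finset.univ : Finset (Fin 3)), ‖z k • cx (b k)‖ ≤ ‖z‖ := by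
      intro k _
      rw [norm_smul]
      have h2 := norm_le_pi_norm z k
      have h3 := hbn k
      calc ‖z k‖ * ‖cx (b k)‖ ≤ ‖z‖ * 1 := mul_le_mul h2 h3 (norm_nonneg _) (norm_nonneg _)
        _ = ‖z‖ := mul_one _
    refine (Finset.sum_le_sum h1).trans ?_
    simp
  have hAl : ∀ (z w : C3) (t : ℂ), A (z + t • w) = A z + t • A w := by
    intro z w t
    rw [hA]
    simp only [Pi.add_apply, Pi.smul_apply, smul_eq_mul, add_smul, Finset.sum_add_distrib,
      Finset.smul_sum, smul_smul]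
  have hAc : Continuous A := by
    rw [hA]
    exact continuous_finsetSum _ fun k _ => (continuous_apply k).smul continuous_const
  set ρ' : ℝ := ρ / 3 with hρ'
  have hρ0 : 0 < ρ' := by positivity
  have hball : ∀ z ∈ ball (0 : C3) ρ', cx p + A z ∈ ball (cx p) ρ := by
    intro z hz
    rw [mem_ball_zero_iff] at hz
    rw [mem_ball, dist_self_add_left]
    have := hAn z
    linarith
  have hG : GH (ball 0 ρ') (fun z => F (cx p + A z)) := by
    refine ⟨?_, ?_⟩
    · exact hF.1.comp (continuous_const.add hAc).continuousOn hball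
    · intro z hz v
      have h1 := hF.2 (cx p + A z) (hball z hz) (A v)
      have h2 : (fun t : ℂ => F (cx p + A (z + t • v))) = fun t : ℂ => F (cx p + A z + t • A v) := by
        funext t
        rw [hAl, add_assoc]
      show DifferentiableAt ℂ (fun t : ℂ => F (cx p + A (z + t • v))) 0
      rw [h2]; exact h1
  have hreal : ∀ (a : ℝ × ℝ) (t : ℝ), cx p + A ![(a.1 : ℂ), (a.2 : ℂ), (t : ℂ)] = cx (pt T p a t) := by
    intro a t
    have e1 : (!₂[a.1, a.2, t] : E) = a.1 • ev 0 + a.2 • ev 1 + t • ev 2 := by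
      ext k
      fin_cases k <;> simp [ev]
    rw [pt, e1, cx_add, map_add, map_add, cx_add, cx_add]
    simp only [hA, Fin.sum_univ_three, map_smul, cx_smul]
    rfl
  have hsup : ∀ z : C3, (∀ k, ‖z k‖ < ρ') → z ∈ ball (0 : C3) ρ' := by
    intro z hz
    rw [mem_ball_zero_iff, pi_norm_lt_iff hρ0]
    exact hz
  refine ⟨T, ρ', fun z => F (cx p + A z), hρ0, hG, ?_, ?_⟩
  · intro a t h1 h2 h3
    have hz : ![(a.1 : ℂ), (a.2 : ℂ), (t : ℂ)] ∈ ball (0 : C3) ρ' := by
      refine hsup _ fun k => ?_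
      fin_cases k
      · simpa [Complex.norm_real] using h1
      · simpa [Complex.norm_real] using h2
      · simpa [Complex.norm_real] using h3
    have h4 := hball _ hz
    rw [hreal] at h4
    have h5 := hYF (pt T p a t) h4
    show (F (cx p + A ![(a.1 : ℂ), (a.2 : ℂ), (t : ℂ)])).im = 0 ∧
      (pt T p a t ∈ Y ↔ F (cx p + A ![(a.1 : ℂ), (a.2 : ℂ), (t : ℂ)]) = 0)
    rw [hreal]
    exact h5
  · by_contra hcon
    push Not at hcon
    have hF1 : F (cx x1) ≠ 0 := fun h => hx1Y ((hYF x1 hx1).2.2 h)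
    have hv : ‖cx x1 - cx p‖ < ρ := by rwa [mem_ball, dist_eq_norm] at hx1
    have hA2 : ∀ ζ : ℂ, A ![0, 0, ζ] = ζ • cx (b 2) := by
      intro ζ
      rw [hA]
      simp [Fin.sum_univ_three]
    have e0 : cx x1 - cx p = ((‖x1 - p‖ : ℝ) : ℂ) • cx (b 2) := by
      rw [← cx_sub, hb, ← cx_smul, ← hT]
    have e1 : cx x1 = cx p + (cx x1 - cx p) := by abel
    refine hF1 ?_
    rw [e1]
    refine line_zero hF hv ⟨ρ' / (‖x1 - p‖ + 1), by positivity, ?_⟩
    intro t ht htε
    have h1 := hcon ((t : ℂ) * ((‖x1 - p‖ : ℝ) : ℂ)) (by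
      rw [norm_mul, Complex.norm_real, Complex.norm_real, Real.norm_of_nonneg ht.le, norm_norm]
      have h2 : t * (‖x1 - p‖ + 1) < ρ' := by
        rwa [lt_div_iff₀ (by positivity)] at htε
      have : t * ‖x1 - p‖ ≤ t * (‖x1 - p‖ + 1) := by
        refine mul_le_mul_of_nonneg_left (by linarith) ht.le
      linarith)
    rw [e0, smul_smul, ← hA2]
    exact h1

end Pool.Agent.H18.IC
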