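import Mathlib
import Pool.Agent.H94.IC.Targets3

/-!
# Insulating cracks, module SUB: interior points of a crack inside a disc
-/

open MeasureTheory Set Filter Topology Metric
open scoped ENNReal NNReal ContDiff RealInnerProductSpace

namespace Pool.Agent.H18.IC

open Pool.Agent.H94.IC

/-- the inclusion of the plane -/
noncomputable def inc : ℝ × ℝ →L[ℝ] E :=
  (ContinuousLinearMap.fst ℝ ℝ ℝ).smulRight (ev 0) + (ContinuousLinearMap.snd ℝ ℝ ℝ).smulRight (ev 1)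

/-- the projection to the plane -/
noncomputable def prj : E →L[ℝ] ℝ × ℝ :=
  (EuclideanSpace.proj (𝕜 := ℝ) (0 : Fin 3)).prod (EuclideanSpace.proj (𝕜 := ℝ) (1 : Fin 3))

theorem inc_0 (a : ℝ × ℝ) : (inc a) 0 = a.1 := by simp [inc, ev]
theorem inc_1 (a : ℝ × ℝ) : (inc a) 1 = a.2 := by simp [inc, ev]
theorem inc_2 (a : ℝ × ℝ) : (inc a) 2 = 0 := by simp [inc, ev]

theorem prj_fst (x : E) : (prj x).1 = x 0 := rfl
theorem prj_snd (x : E) : (prj x).2 = x 1 := rfl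

theorem ext3 {x y : E} (h0 : x 0 = y 0) (h1 : x 1 = y 1) (h2 : x 2 = y 2) : x = y := by
  ext k
  fin_cases k
  · exact h0
  · exact h1
  · exact h2

theorem norm_prj_le (x : E) : ‖prj x‖ ≤ ‖x‖ := by
  rw [Prod.norm_def]
  exact max_le (PiLp.norm_apply_le x 0) (PiLp.norm_apply_le x 1)

/-- module SUB -/
theorem sub : T_SUB := by
  intro Ω S S' Φ δ y hT hSS hy hp
  obtain ⟨hpS, Ψ, hpΨ, hΨp, hΨs, hΨt, hΨS⟩ := hp
  have hsrc : flatDisc ⊆ Φ.source := (self_subset_cthickening _).trans hT.src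
  have hyΦ : y ∈ Φ.source := hsrc hy
  have hpΦ : Φ y ∈ Φ.target := Φ.map_source hyΦ
  have h0t : (0 : E) ∈ Ψ.target := by rw [← hΨp]; exact Ψ.map_source hpΨ
  have hΨ0 : Ψ.symm 0 = Φ y := by rw [← hΨp]; exact Ψ.left_inv hpΨ
  have hΦp : Φ.symm (Φ y) = y := Φ.left_inv hyΦ
  have c1 : ContDiffAt ℝ ∞ Ψ.symm 0 := hΨt.contDiffAt (Ψ.open_target.mem_nhds h0t)
  have c2 : ContDiffAt ℝ ∞ Φ.symm (Φ y) := hT.sms.contDiffAt (Φ.open_target.mem_nhds hpΦ)
  have c3 : ContDiffAt ℝ ∞ Φ y := hT.sm.contDiffAt (Φ.open_source.mem_nhds hyΦ)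
  have c4 : ContDiffAt ℝ ∞ Ψ (Φ y) := hΨs.contDiffAt (Ψ.open_source.mem_nhds hpΨ)
  set H : E → E := fun z => Φ.symm (Ψ.symm z) with hH
  set K : E → E := fun x => Ψ (Φ x) with hK
  have cH : ContDiffAt ℝ ∞ H 0 := by
    refine ContDiffAt.comp (0 : E) ?_ c1
    rw [hΨ0]; exact c2
  have cK : ContDiffAt ℝ ∞ K y := ContDiffAt.comp y c4 c3
  have hH0 : H 0 = y := by rw [hH]; simp only [hΨ0, hΦp]
  -- neighbourhood
  have hV3 : ∀ᶠ z in 𝓝 (0 : E), z ∈ Ψ.target ∧ Ψ.symm z ∈ Φ.target := by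
    refine (Ψ.open_target.mem_nhds h0t |> fun h => (h : ∀ᶠ z in 𝓝 (0 : E), z ∈ Ψ.target)).and ?_
    have h1 : ContinuousAt Ψ.symm 0 := c1.continuousAt
    refine h1.eventually ?_
    rw [hΨ0]
    exact Φ.open_target.mem_nhds hpΦ
  have hKH : ∀ᶠ z in 𝓝 (0 : E), K (H z) = z := by
    filter_upwards [hV3] with z hz
    show Ψ (Φ (Φ.symm (Ψ.symm z))) = z
    rw [Φ.right_inv hz.2, Ψ.right_inv hz.1]
  have dH : HasStrictFDerivAt H (fderiv ℝ H 0) 0 := cH.hasStrictFDerivAt (by simp)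
  have dK : HasFDerivAt K (fderiv ℝ K y) y := (cK.differentiableAt (by simp)).hasFDerivAt
  have dKH : (fderiv ℝ K y).comp (fderiv ℝ H 0) = ContinuousLinearMap.id ℝ E := by
    have h1 : HasFDerivAt (fun z => K (H z)) ((fderiv ℝ K y).comp (fderiv ℝ H 0)) 0 := by
      have hg : HasFDerivAt K (fderiv ℝ K y) (H 0) := by rw [hH0]; exact dK
      exact HasFDerivAt.comp (g := K) (f := H) (0 : E) hg dH.hasFDerivAt
    have h2 : HasFDerivAt (fun z : E => z) (ContinuousLinearMap.id ℝ E) 0 := hasFDerivAt_id 0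
    have h3 : HasFDerivAt (fun z => K (H z)) (ContinuousLinearMap.id ℝ E) 0 :=
      h2.congr_of_eventuallyEq hKH
    exact h1.unique h3
  have hHinj : ∀ v, fderiv ℝ H 0 v = 0 → v = 0 := by
    intro v hv
    have h1 := congrArg (fun L : E →L[ℝ] E => L v) dKH
    simp only [ContinuousLinearMap.comp_apply, hv, map_zero, ContinuousLinearMap.id_apply] at h1
    exact h1.symm
  -- the planar map
  set G : ℝ × ℝ → ℝ × ℝ := fun a => prj (H (inc a)) with hG
  have hi0 : inc (0 : ℝ × ℝ) = 0 := map_zero _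
  set V : Set (ℝ × ℝ) := {a | inc a ∈ Ψ.target ∧ Ψ.symm (inc a) ∈ Φ.target} with hV
  have hVn : V ∈ 𝓝 (0 : ℝ × ℝ) := by
    have h1 : Tendsto inc (𝓝 (0 : ℝ × ℝ)) (𝓝 0) := by
      have := inc.continuous.tendsto (0 : ℝ × ℝ)
      rwa [hi0] at this
    exact h1.eventually hV3
  have hVk : ∀ a ∈ V, H (inc a) ∈ flatDisc ∧ Φ (H (inc a)) ∈ S := by
    intro a ha
    have h1 : Ψ.symm (inc a) ∈ Ψ.source := Ψ.map_target ha.1
    have h2 : Ψ (Ψ.symm (inc a)) = inc a := Ψ.right_inv ha.1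
    have h3 : Ψ.symm (inc a) ∈ S := by
      rw [hΨS _ h1, h2]
      exact ⟨inc_2 a, fun h => h.elim⟩
    have h4 : Ψ.symm (inc a) ∈ Φ '' flatDisc := by rw [hT.img]; exact hSS h3
    obtain ⟨w, hw, hwe⟩ := h4
    have h5 : H (inc a) = w := by
      show Φ.symm (Ψ.symm (inc a)) = w
      rw [← hwe]; exact Φ.left_inv (hsrc hw)
    rw [h5]
    exact ⟨hw, by rw [hwe]; exact h3⟩
  have dHi : HasStrictFDerivAt (fun a : ℝ × ℝ => H (inc a)) ((fderiv ℝ H 0).comp inc) 0 := by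
    refine HasStrictFDerivAt.comp (0 : ℝ × ℝ) ?_ inc.hasStrictFDerivAt
    rw [hi0]; exact dH
  have dG : HasStrictFDerivAt G (prj.comp ((fderiv ℝ H 0).comp inc)) 0 :=
    prj.hasStrictFDerivAt.comp (0 : ℝ × ℝ) dHi
  have hthird : ∀ v : ℝ × ℝ, (fderiv ℝ H 0 (inc v)) 2 = 0 := by
    intro v
    have h1 : HasFDerivAt (fun a : ℝ × ℝ => (H (inc a)) 2)
        ((EuclideanSpace.proj (𝕜 := ℝ) (2 : Fin 3)).comp ((fderiv ℝ H 0).comp inc)) 0 :=
      (EuclideanSpace.proj (𝕜 := ℝ) (2 : Fin 3)).hasFDerivAt.comp (0 : ℝ × ℝ) dHi.hasFDerivAt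
    have h2 : HasFDerivAt (fun _ : ℝ × ℝ => (0 : ℝ)) (0 : ℝ × ℝ →L[ℝ] ℝ) 0 := hasFDerivAt_const _ _
    have h3 : (fun a : ℝ × ℝ => (H (inc a)) 2) =ᶠ[𝓝 0] fun _ => (0 : ℝ) := by
      filter_upwards [hVn] with a ha
      exact (hVk a ha).1.1
    have h4 := h1.unique (h2.congr_of_eventuallyEq h3)
    have h5 := congrArg (fun L : ℝ × ℝ →L[ℝ] ℝ => L v) h4
    simpa using h5
  have hGinj : ∀ v, (prj.comp ((fderiv ℝ H 0).comp inc)) v = 0 → v = 0 := by
    intro v hv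
    have h1 : prj (fderiv ℝ H 0 (inc v)) = 0 := hv
    have h2 : fderiv ℝ H 0 (inc v) = 0 := by
      refine ext3 ?_ ?_ ?_
      · have := congrArg Prod.fst h1
        simpa [prj_fst] using this
      · have := congrArg Prod.snd h1
        simpa [prj_snd] using this
      · rw [hthird v]; rfl
    have h3 := hHinj _ h2
    have h4 := inc_0 v
    have h5 := inc_1 v
    rw [h3] at h4 h5
    refine Prod.ext ?_ ?_
    · simpa using h4.symm
    · simpa using h5.symm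
  have hsurj : (prj.comp ((fderiv ℝ H 0).comp inc)).range = ⊤ := by
    have h1 : Function.Injective (prj.comp ((fderiv ℝ H 0).comp inc)).toLinearMap := by
      rw [← LinearMap.ker_eq_bot, LinearMap.ker_eq_bot']
      exact hGinj
    have h2 := LinearMap.injective_iff_surjective.1 h1
    exact LinearMap.range_eq_top.2 h2
  have hmap := dG.map_nhds_eq_of_surj hsurj
  have hG0 : G 0 = prj y := by
    show prj (H (inc 0)) = prj y
    rw [hi0, hH0]
  have himg : G '' V ∈ 𝓝 (prj y) := by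
    rw [← hG0, ← hmap]
    exact image_mem_map hVn
  obtain ⟨ε, hε, hball⟩ := Metric.mem_nhds_iff.1 himg
  refine ⟨ε, hε, ?_⟩
  intro y' hy'2 hy'
  have h1 : prj y' ∈ ball (prj y) ε := by
    rw [mem_ball, dist_eq_norm, ← map_sub]
    exact (norm_prj_le _).trans_lt hy'
  obtain ⟨a, haV, ha⟩ := hball h1
  obtain ⟨h2, h3⟩ := hVk a haV
  have h4 : H (inc a) = y' := by
    refine ext3 ?_ ?_ ?_
    · exact congrArg Prod.fst ha
    · exact congrArg Prod.snd ha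
    · rw [h2.1, hy'2]
  rw [h4] at h2 h3
  exact ⟨h2, h3⟩

end Pool.Agent.H18.IC
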