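import Mathlib
import Pool.Agent.H94.IC.Targets3
import Pool.Agent.H18.IC.SUB

/-!
# Insulating cracks, module CSC: a crack inside a disc which contains the edge of the disc
-/

open MeasureTheory Set Filter Topology Metric
open scoped ENNReal NNReal ContDiff RealInnerProductSpace

namespace Pool.Agent.H18.IC

open Pool.Agent.H94.IC

/-- the point of the unit circle in the plane -/
noncomputable def cpt (z : Circle) : E := inc ((z : ℂ).re, (z : ℂ).im)

theorem cpt_continuous : Continuous cpt := by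
  refine inc.continuous.comp ?_
  exact (Complex.continuous_re.comp continuous_subtype_val).prodMk
    (Complex.continuous_im.comp continuous_subtype_val)

theorem cpt_mem (z : Circle) : (cpt z) 2 = 0 ∧ (cpt z) 0 ^ 2 + (cpt z) 1 ^ 2 = 1 := by
  refine ⟨inc_2 _, ?_⟩
  rw [cpt, inc_0, inc_1]
  have h := Circle.normSq_coe z
  rw [Complex.normSq_apply] at h
  nlinarith

theorem cpt_inj {z w : Circle} (h : cpt z = cpt w) : z = w := by
  have h0 : (cpt z) 0 = (cpt w) 0 := by rw [h]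
  have h1 : (cpt z) 1 = (cpt w) 1 := by rw [h]
  rw [cpt, cpt, inc_0, inc_0] at h0
  rw [cpt, cpt, inc_1, inc_1] at h1
  exact Subtype.ext (Complex.ext h0 h1)

/-- module CSC -/
theorem csc (hSUB : T_SUB) (hSQI : T_SQI) (hCIR : T_CIR) : T_CSC := by
  intro Ω S S' Φ δ hT hS hSS hedge
  have hsrc : flatDisc ⊆ Φ.source := (self_subset_cthickening _).trans hT.src
  have hclosed : IsClosed S := hS.cpt.isClosed
  have hcD : ∀ y : E, y 2 = 0 → y 0 ^ 2 + y 1 ^ 2 = 1 → y ∈ flatDisc := fun y h1 h2 => ⟨h1, h2.le⟩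
  -- (1)
  have h1 : ∀ y : E, y 2 = 0 → y 0 ^ 2 + y 1 ^ 2 = 1 → Φ y ∉ intPts S := by
    intro y hy2 hy1 hint
    obtain ⟨ε, hε, h⟩ := hSUB Ω S S' Φ δ y hT hSS (hcD y hy2 hy1) hint
    have hn : ‖y‖ = 1 := by
      rw [EuclideanSpace.norm_eq, Fin.sum_univ_three]
      simp only [Real.norm_eq_abs, sq_abs, hy2]
      rw [show y 0 ^ 2 + y 1 ^ 2 + 0 ^ 2 = (1 : ℝ) by linarith]
      simp
    have h2 := h ((1 + ε / 2) • y) (by simp [hy2]) (by
      have e1 : (1 + ε / 2) • y - y = (ε / 2) • y := by rw [add_smul, one_smul]; abel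
      rw [e1, norm_smul, hn, Real.norm_of_nonneg (by positivity)]
      linarith)
    have h3 := h2.1.2
    simp only [PiLp.smul_apply, smul_eq_mul] at h3
    have h4 : ((1 + ε / 2) * y 0) ^ 2 + ((1 + ε / 2) * y 1) ^ 2 = (1 + ε / 2) ^ 2 := by
      calc ((1 + ε / 2) * y 0) ^ 2 + ((1 + ε / 2) * y 1) ^ 2
          = (1 + ε / 2) ^ 2 * (y 0 ^ 2 + y 1 ^ 2) := by ring
        _ = (1 + ε / 2) ^ 2 := by rw [hy1, mul_one]
    rw [h4] at h3
    nlinarith
  -- (2)
  have h2 : ∀ y : E, y 2 = 0 → y 0 ^ 2 + y 1 ^ 2 = 1 → Φ y ∈ edgePts S := by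
    intro y hy2 hy1
    exact (hS.chart _ (hedge y hy2 hy1)).resolve_left (h1 y hy2 hy1)
  -- (3)
  obtain ⟨γ, hγc, hγi, hγr⟩ := hS.edge
  have hemb : IsEmbedding γ := (hγc.isClosedEmbedding hγi).isEmbedding
  have hex : ∀ z : Circle, ∃ w : Circle, γ w = Φ (cpt z) := by
    intro z
    have h3 := h2 (cpt z) (cpt_mem z).1 (cpt_mem z).2
    rw [← hγr] at h3
    exact h3
  choose f hf using hex
  have hfc : Continuous f := by
    rw [hemb.continuous_iff]
    have e1 : γ ∘ f = fun z => Φ (cpt z) := by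
      funext z
      exact hf z
    rw [e1]
    refine Φ.continuousOn.comp_continuous cpt_continuous ?_
    intro z
    exact hsrc (hcD _ (cpt_mem z).1 (cpt_mem z).2)
  have hfi : Function.Injective f := by
    intro z w hzw
    have h3 : Φ (cpt z) = Φ (cpt w) := by rw [← hf z, ← hf w, hzw]
    have h4 := Φ.injOn (hsrc (hcD _ (cpt_mem z).1 (cpt_mem z).2))
      (hsrc (hcD _ (cpt_mem w).1 (cpt_mem w).2)) h3
    exact cpt_inj h4
  have hfs := hCIR f hfc hfi
  have h3 : ∀ p ∈ edgePts S, ∃ z : Circle, Φ (cpt z) = p := by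
    intro p hp
    rw [← hγr] at hp
    obtain ⟨w, rfl⟩ := hp
    obtain ⟨z, rfl⟩ := hfs w
    exact ⟨z, (hf z).symm⟩
  -- (4)
  set B : Set E := {y | y 2 = 0 ∧ y 0 ^ 2 + y 1 ^ 2 < 1} with hB
  have hBD : B ⊆ flatDisc := fun y hy => ⟨hy.1, hy.2.le⟩
  have hBpre : IsPreconnected B := by
    have e1 : B = inc '' {a : ℝ × ℝ | a.1 ^ 2 + a.2 ^ 2 < 1} := by
      ext y
      constructor
      · intro hy
        refine ⟨(y 0, y 1), hy.2, ?_⟩
        refine ext3 (inc_0 _) (inc_1 _) ?_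
        rw [inc_2, hy.1]
      · rintro ⟨a, ha, rfl⟩
        refine ⟨inc_2 a, ?_⟩
        rw [inc_0, inc_1]; exact ha
    rw [e1]
    refine IsPreconnected.image ?_ _ inc.continuous.continuousOn
    refine Convex.isPreconnected ?_
    intro a ha b hb s t hs ht hst
    show (s * a.1 + t * b.1) ^ 2 + (s * a.2 + t * b.2) ^ 2 < 1
    have ha' : a.1 ^ 2 + a.2 ^ 2 < 1 := ha
    have hb' : b.1 ^ 2 + b.2 ^ 2 < 1 := hb
    have e2 : t = 1 - s := by linarith
    subst e2
    rcases eq_or_lt_of_le hs with h | h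
    · rw [← h]; simpa using hb'
    · nlinarith [sq_nonneg (a.1 - b.1), sq_nonneg (a.2 - b.2), mul_nonneg hs ht,
        mul_lt_mul_of_pos_left ha' h, mul_le_mul_of_nonneg_left hb'.le ht,
        mul_nonneg (mul_nonneg hs ht) (sq_nonneg (a.1 - b.1)),
        mul_nonneg (mul_nonneg hs ht) (sq_nonneg (a.2 - b.2))]
  have : PreconnectedSpace B := isPreconnected_iff_preconnectedSpace.1 hBpre
  set A : Set B := {y | Φ (y : E) ∈ S} with hA
  have hcont : Continuous fun y : B => Φ (y : E) :=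
    Φ.continuousOn.comp_continuous continuous_subtype_val fun y => hsrc (hBD y.2)
  have hAc : IsClosed A := hclosed.preimage hcont
  have hAo : IsOpen A := by
    rw [Metric.isOpen_iff]
    intro y hy
    have hyE : Φ (y : E) ∉ edgePts S := by
      intro h
      obtain ⟨z, hz⟩ := h3 _ h
      have h4 := Φ.injOn (hsrc (hcD _ (cpt_mem z).1 (cpt_mem z).2)) (hsrc (hBD y.2)) hz
      have h5 := (cpt_mem z).2
      rw [h4] at h5
      exact absurd y.2.2 (by rw [h5]; exact lt_irrefl _)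
    have hyI : Φ (y : E) ∈ intPts S := (hS.chart _ hy).resolve_right hyE
    obtain ⟨ε, hε, h⟩ := hSUB Ω S S' Φ δ y hT hSS (hBD y.2) hyI
    refine ⟨ε, hε, ?_⟩
    intro y' hy'
    refine (h y' y'.2.1 ?_).2
    rw [mem_ball, Subtype.dist_eq, dist_eq_norm] at hy'
    exact hy'
  have hAn : A.Nonempty := by
    obtain ⟨p0, hp0⟩ := hS.conn.nonempty
    have h4 : (closure (intPts S)).Nonempty := ⟨p0, hSQI Ω S hS hp0⟩
    obtain ⟨p, hp⟩ := closure_nonempty_iff.1 h4
    have h5 : p ∈ Φ '' flatDisc := by rw [hT.img]; exact hSS hp.1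
    obtain ⟨y, hy, rfl⟩ := h5
    have h6 : y ∈ B := by
      refine ⟨hy.1, lt_of_le_of_ne hy.2 fun h => h1 y hy.1 h hp⟩
    exact ⟨⟨y, h6⟩, hp.1⟩
  have hAu : A = univ := IsClopen.eq_univ ⟨hAc, hAo⟩ hAn
  -- (5)
  refine Subset.antisymm hSS ?_
  rw [← hT.img]
  rintro _ ⟨y, hy, rfl⟩
  rcases eq_or_lt_of_le hy.2 with h | h
  · exact hedge y hy.1 h
  · have h4 : (⟨y, ⟨hy.1, h⟩⟩ : B) ∈ A := by rw [hAu]; exact mem_univ _
    exact h4

end Pool.Agent.H18.IC
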