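import Mathlib
import Pool.Agent.H94.IC.Targets2

/-!
# Insulating cracks, module ENC: topology of the enclosed part
-/

open MeasureTheory Set Filter Topology Metric
open scoped ENNReal NNReal ContDiff RealInnerProductSpace

namespace Pool.Agent.H18.IC

open Pool.Agent.H94.IC

/-- boundary points of Lipschitz domains are limits of exterior points -/
theorem frontier_sub_closure {Ω : Set E} (hL : LipBdry Ω) (ho : IsOpen Ω) {q : E}
    (hq : q ∈ frontier Ω) : q ∈ closure (closure Ω)ᶜ := by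
  obtain ⟨T, r, L, g, hr, hg, hT⟩ := hL q hq
  have hqn : q ∉ Ω := by
    rw [frontier, ho.interior_eq] at hq
    exact hq.2
  have hgc : Continuous g := hg.continuous
  have hc : ∀ k : Fin 3, Continuous fun x : E => (T x) k := fun k =>
    (EuclideanSpace.proj (𝕜 := ℝ) k).continuous.comp T.continuous
  have hopen : IsOpen (ball q r ∩ {x : E | g ((T x) 0, (T x) 1) < (T x) 2}) :=
    isOpen_ball.inter (isOpen_lt (hgc.comp ((hc 0).prodMk (hc 1))) (hc 2))
  have hdis : ∀ x ∈ ball q r ∩ {x : E | g ((T x) 0, (T x) 1) < (T x) 2}, x ∈ (closure Ω)ᶜ := by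
    intro x hx hxc
    rw [_root_.mem_closure_iff] at hxc
    obtain ⟨y, hy, hyΩ⟩ := hxc _ hopen hx
    have h1 := (hT y hy.1).1 hyΩ
    exact absurd h1 (not_lt.2 hy.2.le)
  have hq2 : g ((T q) 0, (T q) 1) ≤ (T q) 2 := by
    by_contra h
    exact hqn ((hT q (mem_ball_self hr)).2 (not_le.1 h))
  rw [Metric.mem_closure_iff]
  intro ε hε
  set τ : ℝ := min (ε / 2) (r / 2) with hτ
  have hτ0 : 0 < τ := by positivity
  set p : E := q + T.symm (τ • ev 2) with hp
  have hTp : T p = T q + τ • ev 2 := by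
    rw [hp, map_add, LinearIsometryEquiv.apply_symm_apply]
  have hdist : dist q p = τ := by
    rw [hp, dist_self_add_right, LinearIsometryEquiv.norm_map, norm_smul]
    simp [abs_of_pos hτ0]
  have h0 : (T p) 0 = (T q) 0 := by rw [hTp]; simp [ev]
  have h1 : (T p) 1 = (T q) 1 := by rw [hTp]; simp [ev]
  have h2 : (T p) 2 = (T q) 2 + τ := by rw [hTp]; simp [ev]
  refine ⟨p, hdis p ⟨?_, ?_⟩, ?_⟩
  · rw [mem_ball, dist_comm, hdist]
    have := min_le_right (ε / 2) (r / 2)
    linarith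
  · show g ((T p) 0, (T p) 1) < (T p) 2
    rw [h0, h1, h2]; linarith
  · rw [hdist]
    have := min_le_left (ε / 2) (r / 2)
    linarith

/-- module ENC -/
theorem enc : T_ENC := by
  intro Ω S S' hD hS hSΩ hS' hS'Ω
  have hO : IsOpen (S ∪ S')ᶜ := (hS.union hS').isClosed.isOpen_compl
  have hmem : ∀ x, x ∈ (S ∪ S')ᶜ ↔ x ∉ S ∧ x ∉ S' := by
    intro x; simp [not_or]
  have hop : ∀ x, IsOpen (connectedComponentIn (S ∪ S')ᶜ x) := fun x => hO.connectedComponentIn
  have hkey : ∀ x ∈ (S ∪ S')ᶜ, ∀ y ∈ connectedComponentIn (S ∪ S')ᶜ x,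
      (x ∈ Enc Ω S S' ↔ y ∈ Enc Ω S S') := by
    intro x hx y hy
    have h1 := connectedComponentIn_eq hy
    have hyO : y ∈ (S ∪ S')ᶜ := connectedComponentIn_subset _ _ hy
    have hx' := (hmem x).1 hx
    have hy' := (hmem y).1 hyO
    simp only [Enc, Set.mem_ofPred_eq, h1]
    tauto
  have hEO : Enc Ω S S' ⊆ (S ∪ S')ᶜ := fun x hx => (hmem x).2 ⟨hx.1, hx.2.1⟩
  have hopen : IsOpen (Enc Ω S S') := by
    rw [isOpen_iff_mem_nhds]
    intro x hx
    have hxO := hEO hx
    filter_upwards [(hop x).mem_nhds (mem_connectedComponentIn hxO)] with y hy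
    exact (hkey x hxO y hy).1 hx
  have hsub : Enc Ω S S' ⊆ Ω := by
    intro x hx
    have hxO := hEO hx
    by_contra hxn
    have hxc : x ∈ closure Ω := by
      by_contra h
      exact hx.2.2 ⟨x, mem_connectedComponentIn hxO, h⟩
    have hxf : x ∈ frontier Ω := by
      rw [frontier, hD.op.interior_eq]; exact ⟨hxc, hxn⟩
    have h2 := frontier_sub_closure hD.lip hD.op hxf
    rw [_root_.mem_closure_iff] at h2
    exact hx.2.2 (h2 _ (hop x) (mem_connectedComponentIn hxO))
  have hcl : closure (Enc Ω S S') ⊆ Enc Ω S S' ∪ S ∪ S' := by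
    intro x hx
    by_cases hxO : x ∈ (S ∪ S')ᶜ
    · rw [_root_.mem_closure_iff] at hx
      obtain ⟨y, hy1, hy2⟩ := hx _ (hop x) (mem_connectedComponentIn hxO)
      exact Or.inl (Or.inl ((hkey x hxO y hy1).2 hy2))
    · rw [mem_compl_iff, not_not] at hxO
      rcases hxO with h | h
      · exact Or.inl (Or.inr h)
      · exact Or.inr h
  refine ⟨hopen, ?_, hcl⟩
  intro x hx
  rcases hcl hx with (h | h) | h
  · exact hsub h
  · exact hSΩ h
  · exact hS'Ω h

end Pool.Agent.H18.IC
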